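import Mathlib

/-!
# SX-ZM (job 9604): the coefficients of a Dirichlet polynomial times a finite Euler product (helper96)
-/

set_option autoImplicit false

namespace Pool.Agent.Y96.SX

open Finset Filter Topology MeasureTheory Complex

noncomputable section

/-- the coefficients of the product -/
def bb (N Q r : ℕ) : ℤ := ∑ d ∈ Q.divisors.filter (fun d => d ∣ r ∧ r / d ≤ N), ArithmeticFunction.moebius d

theorem sum_mu (n : ℕ) : ∑ d ∈ n.divisors, ArithmeticFunction.moebius d = if n = 1 then 1 else 0 := by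
  rw [← ArithmeticFunction.coe_zeta_mul_apply, ArithmeticFunction.coe_zeta_mul_moebius,
    ArithmeticFunction.one_apply]

theorem bb_small {N Q r : ℕ} (hQ : Q ≠ 0) (hr1 : 1 ≤ r) (hr : r ≤ N) :
    bb N Q r = if Nat.gcd Q r = 1 then 1 else 0 := by
  unfold bb
  rw [← sum_mu]
  refine sum_congr ?_ fun _ _ => rfl
  ext d
  simp only [mem_filter, Nat.mem_divisors]
  constructor
  · rintro ⟨⟨h1, _⟩, h2, _⟩
    exact ⟨Nat.dvd_gcd h1 h2, (Nat.gcd_pos_of_pos_right _ hr1).ne'⟩
  · rintro ⟨h1, _⟩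
    exact ⟨⟨h1.trans (Nat.gcd_dvd_left _ _), hQ⟩, h1.trans (Nat.gcd_dvd_right _ _),
      (Nat.div_le_self _ _).trans hr⟩

theorem bb_le (N Q r : ℕ) (hr1 : 1 ≤ r) : |(bb N Q r : ℝ)| ≤ (r.divisors.card : ℝ) := by
  unfold bb
  push_cast
  refine (abs_sum_le_sum_abs _ _).trans ?_
  calc ∑ d ∈ Q.divisors.filter (fun d => d ∣ r ∧ r / d ≤ N), |((ArithmeticFunction.moebius d : ℤ) : ℝ)|
      ≤ ∑ d ∈ Q.divisors.filter (fun d => d ∣ r ∧ r / d ≤ N), (1:ℝ) := by
        refine sum_le_sum fun d _ => ?_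
        have := ArithmeticFunction.abs_moebius_le_one (n := d)
        exact_mod_cast this
    _ = ((Q.divisors.filter (fun d => d ∣ r ∧ r / d ≤ N)).card : ℝ) := by simp
    _ ≤ _ := by
        norm_cast
        refine card_le_card fun d hd => ?_
        rw [mem_filter] at hd
        exact Nat.mem_divisors.2 ⟨hd.2.1, by omega⟩

theorem prod_eq (N Q : ℕ) (_hQ : Q ≠ 0) (f : ℕ → ℂ) :
    ∑ d ∈ Q.divisors, ∑ m ∈ Icc 1 N, (ArithmeticFunction.moebius d : ℂ) * f (m * d) =
      ∑ r ∈ Icc 1 (N * Q), (bb N Q r : ℂ) * f r := by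
  have h1 : ∀ d ∈ Q.divisors, ∑ m ∈ Icc 1 N, (ArithmeticFunction.moebius d : ℂ) * f (m * d) =
      ∑ r ∈ Icc 1 (N * Q), if d ∣ r ∧ r / d ≤ N then (ArithmeticFunction.moebius d : ℂ) * f r else 0 := by
    intro d hd
    have hd0 : 0 < d := Nat.pos_of_mem_divisors hd
    have hdQ : d ≤ Q := Nat.divisor_le hd
    rw [← sum_filter]
    refine sum_nbij' (fun m => m * d) (fun r => r / d) ?_ ?_ ?_ ?_ ?_
    · intro m hm
      rw [mem_Icc] at hm
      rw [mem_filter, mem_Icc]
      refine ⟨⟨Nat.mul_pos hm.1 hd0, Nat.mul_le_mul hm.2 hdQ⟩, dvd_mul_left _ _, ?_⟩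
      rw [Nat.mul_div_cancel _ hd0]
      exact hm.2
    · intro r hr
      rw [mem_filter, mem_Icc] at hr
      rw [mem_Icc]
      exact ⟨Nat.div_pos (Nat.le_of_dvd (by omega) hr.2.1) hd0, hr.2.2⟩
    · intro m _
      exact Nat.mul_div_cancel _ hd0
    · intro r hr
      rw [mem_filter] at hr
      exact Nat.div_mul_cancel hr.2.1
    · intro m _
      rfl
  rw [sum_congr rfl h1, sum_comm]
  refine sum_congr rfl fun r _ => ?_
  unfold bb
  rw [← sum_filter]
  push_cast
  rw [sum_mul]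

/-- the finite Euler product -/
theorem euler_eq (y : ℕ) (s : ℂ) :
    ∏ p ∈ (Finset.range (y + 1)).filter Nat.Prime, (1 - (p : ℂ) ^ (-s)) =
      ∑ d ∈ (primorial y).divisors, (ArithmeticFunction.moebius d : ℂ) * (d : ℂ) ^ (-s) := by
  have hsq : Squarefree (primorial y) := by
    unfold primorial
    refine Finset.squarefree_prod_of_pairwise_isCoprime ?_ ?_
    · intro p hp q hq hpq
      simp only [coe_filter, Set.mem_setOf_eq] at hp hq
      exact Nat.coprime_iff_isRelPrime.1 ((Nat.coprime_primes hp.2 hq.2).2 hpq)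
    · intro p hp
      exact (mem_filter.1 hp).2.prime.squarefree
  have hpf : (primorial y).primeFactors = (Finset.range (y + 1)).filter Nat.Prime := by
    unfold primorial
    exact Nat.primeFactors_prod fun p hp => (mem_filter.1 hp).2
  let f : ArithmeticFunction ℂ := ⟨fun n => if n = 0 then 0 else (n : ℂ) ^ (-s), by simp⟩
  have hf1 : ∀ n : ℕ, n ≠ 0 → f n = (n : ℂ) ^ (-s) := fun n hn => if_neg hn
  have hf : f.IsMultiplicative := by
    refine ⟨by rw [hf1 1 one_ne_zero]; simp, ?_⟩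
    intro m n _
    rcases eq_or_ne m 0 with h | hm
    · subst h
      simp
    rcases eq_or_ne n 0 with h | hn
    · subst h
      simp
    rw [hf1 _ (mul_ne_zero hm hn), hf1 _ hm, hf1 _ hn, Nat.cast_mul, Complex.natCast_mul_natCast_cpow]
  have h := ArithmeticFunction.IsMultiplicative.prodPrimeFactors_one_sub_of_squarefree f hf hsq
  rw [hpf] at h
  have e1 : ∏ p ∈ (Finset.range (y + 1)).filter Nat.Prime, (1 - f p) =
      ∏ p ∈ (Finset.range (y + 1)).filter Nat.Prime, (1 - (p : ℂ) ^ (-s)) :=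
    prod_congr rfl fun p hp => by rw [hf1 p (mem_filter.1 hp).2.ne_zero]
  rw [← e1, h]
  refine sum_congr rfl fun d hd => ?_
  rw [hf1 d (Nat.pos_of_mem_divisors hd).ne']

/-- a prime below `y` divides the primorial -/
theorem gcd_ne_one {y r : ℕ} (h1 : 2 ≤ r) (h2 : r ≤ y) : Nat.gcd (primorial y) r ≠ 1 := by
  intro h
  obtain ⟨p, hp, hpr⟩ := Nat.exists_prime_and_dvd (by omega : r ≠ 1)
  have hpy : p ≤ y := (Nat.le_of_dvd (by omega) hpr).trans h2
  have : p ∣ primorial y := by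
    unfold primorial
    exact dvd_prod_of_mem (fun p => p) (mem_filter.2 ⟨mem_range.2 (by omega), hp⟩)
  have := Nat.dvd_gcd this hpr
  rw [h] at this
  exact hp.one_lt.ne' (Nat.dvd_one.1 this)

/-- the size of the finite Euler product -/
theorem norm_euler_le (y : ℕ) (x : ℝ) :
    ‖∏ p ∈ (Finset.range (y + 1)).filter Nat.Prime, (1 - (p : ℂ) ^ (-(1 + I * x)))‖ ≤ y + 1 := by
  rw [norm_prod]
  have h1 : ∏ p ∈ (Finset.range (y + 1)).filter Nat.Prime, ‖1 - (p : ℂ) ^ (-(1 + I * x))‖ ≤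
      ∏ p ∈ (Finset.range (y + 1)).filter Nat.Prime, (1 + 1 / (p:ℝ)) := by
    refine prod_le_prod (fun _ _ => norm_nonneg _) fun p hp => ?_
    have hp0 : 0 < p := (mem_filter.1 hp).2.pos
    refine (norm_sub_le _ _).trans ?_
    rw [norm_one, Complex.norm_natCast_cpow_of_pos hp0]
    have : (-(1 + I * (x : ℂ))).re = -1 := by simp
    rw [this, Real.rpow_neg_one, one_div]
  have h2 : ∏ p ∈ (Finset.range (y + 1)).filter Nat.Prime, (1 + 1 / (p:ℝ)) ≤
      ∏ n ∈ Icc 1 y, (1 + 1 / (n:ℝ)) := by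
    refine prod_le_prod_of_subset_of_one_le ?_ ?_ ?_
    · intro p hp
      rw [mem_filter, mem_range] at hp
      exact mem_Icc.2 ⟨hp.2.pos, by omega⟩
    · intro n _
      positivity
    · intro n _ _
      have : 0 ≤ 1 / (n:ℝ) := by positivity
      linarith
  have h3 : ∀ z : ℕ, ∏ n ∈ Icc 1 z, (1 + 1 / (n:ℝ)) = z + 1 := by
    intro z
    induction z with
    | zero => simp
    | succ z ih =>
      rw [prod_Icc_succ_top (by omega), ih]
      have : ((z:ℝ) + 1) ≠ 0 := by positivity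
      push_cast
      field_simp
  rw [← h3 y]
  exact h1.trans h2

end

end Pool.Agent.Y96.SX
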