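import Mathlib

/-!
# SX-ZM (job 9604): a simple mean value theorem for Dirichlet polynomials (helper96)
-/

set_option autoImplicit false

namespace Pool.Agent.Y96.SX

open Finset Filter Topology MeasureTheory Complex

theorem int_exp (U l : ℝ) (hl : l ≠ 0) :
    ‖∫ u in (1:ℝ)..U, cexp (I * (l : ℂ) * (u : ℂ))‖ ≤ 2 / |l| := by
  have hc : (I * (l:ℂ)) ≠ 0 := mul_ne_zero I_ne_zero (by exact_mod_cast hl)
  have h1 : ∀ v : ℝ, ‖cexp (I * (l : ℂ) * (v:ℂ))‖ = 1 := by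
    intro v
    rw [show I * (l:ℂ) * (v:ℂ) = ((l * v : ℝ) : ℂ) * I by push_cast; ring]
    exact norm_exp_ofReal_mul_I _
  rw [integral_exp_mul_complex hc, norm_div, norm_mul, norm_I, one_mul, norm_real, Real.norm_eq_abs]
  refine div_le_div_of_nonneg_right ?_ (abs_nonneg _)
  refine (norm_sub_le _ _).trans ?_
  rw [h1, h1]
  norm_num

theorem pair_le {m n : ℕ} (hm : 1 ≤ m) (hmn : m < n) {x y : ℝ} (hx : 0 ≤ x) (hy : 0 ≤ y) :
    x * y * (2 / |Real.log n - Real.log m|) ≤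
      (m * x ^ 2) * (1 / ((n:ℝ) - m)) + (n * y ^ 2) * (1 / ((n:ℝ) - m) + 1 / m) := by
  have hm0 : (0:ℝ) < m := by exact_mod_cast hm
  have hmn' : (m:ℝ) < n := by exact_mod_cast hmn
  have hn0 : (0:ℝ) < n := hm0.trans hmn'
  have hd : 0 < (n:ℝ) - m := by linarith
  have h1 : ((n:ℝ) - m) / n ≤ Real.log n - Real.log m := by
    rw [← Real.log_div hn0.ne' hm0.ne']
    have := Real.one_sub_inv_le_log_of_pos (div_pos hn0 hm0)
    rw [inv_div] at this
    calc ((n:ℝ) - m) / n = 1 - m / n := by field_simp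
      _ ≤ _ := this
  have h0 : 0 < ((n:ℝ) - m) / n := div_pos hd hn0
  rw [abs_of_pos (h0.trans_le h1)]
  have h2 : 2 / (Real.log n - Real.log m) ≤ 2 / (((n:ℝ) - m) / n) :=
    div_le_div_of_nonneg_left (by norm_num) h0 h1
  refine (mul_le_mul_of_nonneg_left h2 (mul_nonneg hx hy)).trans ?_
  have h3 : (m * x ^ 2) * (1 / ((n:ℝ) - m)) + (n * y ^ 2) * (1 / ((n:ℝ) - m) + 1 / m) -
      x * y * (2 / (((n:ℝ) - m) / n)) = (x * m - y * n) ^ 2 / (m * ((n:ℝ) - m)) := by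
    field_simp
    ring
  have h4 : 0 ≤ (x * m - y * n) ^ 2 / (m * ((n:ℝ) - m)) := by positivity
  linarith

theorem dist_sum (M m : ℕ) (hm : m ∈ Icc 1 M) :
    ∑ n ∈ Icc 1 M, (if m = n then (0:ℝ) else 1 / |(m:ℝ) - n|) ≤ 2 * ∑ k ∈ Icc 1 M, (1:ℝ) / k := by
  have h1 : ∀ n ∈ Icc 1 M, (if m = n then (0:ℝ) else 1 / |(m:ℝ) - n|) ≤
      ∑ k ∈ Icc 1 M, ((if n = m + k then (1:ℝ) / k else 0) + (if n = m - k then (1:ℝ) / k else 0)) := by
    intro n hn
    rw [mem_Icc] at hn hm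
    have h0 : ∀ k ∈ Icc 1 M, 0 ≤ ((if n = m + k then (1:ℝ) / k else 0) +
        (if n = m - k then (1:ℝ) / k else 0)) := by
      intro k _
      positivity
    rcases lt_trichotomy m n with h | h | h
    · rw [if_neg h.ne]
      refine le_trans ?_ (single_le_sum h0 (mem_Icc.2 ⟨?_, ?_⟩ : n - m ∈ Icc 1 M))
      · rw [if_pos (by omega : n = m + (n - m))]
        have e : |(m:ℝ) - n| = ((n - m : ℕ) : ℝ) := by
          rw [Nat.cast_sub h.le, abs_sub_comm, abs_of_nonneg]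
          have : (m:ℝ) < n := by exact_mod_cast h
          linarith
        rw [e]
        have : 0 ≤ (if n = m - (n - m) then (1:ℝ) / ((n - m : ℕ) : ℝ) else 0) := by positivity
        linarith
      · omega
      · omega
    · rw [if_pos h]
      exact sum_nonneg h0
    · rw [if_neg h.ne']
      refine le_trans ?_ (single_le_sum h0 (mem_Icc.2 ⟨?_, ?_⟩ : m - n ∈ Icc 1 M))
      · rw [if_pos (by omega : n = m - (m - n))]
        have e : |(m:ℝ) - n| = ((m - n : ℕ) : ℝ) := by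
          rw [Nat.cast_sub h.le, abs_of_nonneg]
          have : (n:ℝ) < m := by exact_mod_cast h
          linarith
        rw [e]
        have : 0 ≤ (if n = m + (m - n) then (1:ℝ) / ((m - n : ℕ) : ℝ) else 0) := by positivity
        linarith
      · omega
      · omega
  refine (sum_le_sum h1).trans ?_
  rw [sum_comm, mul_sum]
  refine sum_le_sum fun k _ => ?_
  have hk : 0 ≤ (1:ℝ) / k := by positivity
  rw [sum_add_distrib, sum_ite_eq', sum_ite_eq']
  split_ifs <;> linarith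

theorem w_sum (M m : ℕ) (hm : m ∈ Icc 1 M) :
    ∑ n ∈ Icc 1 M, (if m = n then (0:ℝ) else 1 / |(m:ℝ) - n| + 1 / n) ≤
      3 * ∑ k ∈ Icc 1 M, (1:ℝ) / k := by
  have h1 : ∀ n ∈ Icc 1 M, (if m = n then (0:ℝ) else 1 / |(m:ℝ) - n| + 1 / n) ≤
      (if m = n then (0:ℝ) else 1 / |(m:ℝ) - n|) + 1 / n := by
    intro n _
    have : 0 ≤ (1:ℝ) / n := by positivity
    split_ifs
    · linarith
    · exact le_rfl
  refine (sum_le_sum h1).trans ?_
  rw [sum_add_distrib]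
  have := dist_sum M m hm
  linarith

/-- the mean value theorem -/
theorem mv (M : ℕ) (U : ℝ) (hU : 1 ≤ U) (a : ℕ → ℂ) :
    ∫ u in (1:ℝ)..U, ‖∑ n ∈ Icc 1 M, a n * (n : ℂ) ^ (-(I * (u:ℂ)))‖ ^ 2 ≤
      U * ∑ n ∈ Icc 1 M, ‖a n‖ ^ 2 +
        6 * (∑ k ∈ Icc 1 M, (1:ℝ) / k) * ∑ n ∈ Icc 1 M, (n:ℝ) * ‖a n‖ ^ 2 := by
  set J : ℕ → ℕ → ℂ := fun m n =>
    ∫ u in (1:ℝ)..U, cexp (I * ((Real.log n - Real.log m : ℝ) : ℂ) * (u : ℂ)) with hJ
  set F : ℝ → ℂ := fun u => ∑ n ∈ Icc 1 M, a n * (n : ℂ) ^ (-(I * (u:ℂ))) with hF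
  have hpow : ∀ n ∈ Icc 1 M, ∀ u : ℝ, (n : ℂ) ^ (-(I * (u:ℂ))) = cexp (-(I * (Real.log n : ℂ) * u)) := by
    intro n hn u
    have hn1 := (mem_Icc.1 hn).1
    rw [Complex.cpow_def_of_ne_zero (by exact_mod_cast (by omega : n ≠ 0)), ← Complex.natCast_log]
    congr 1
    ring
  have hint : ((∫ u in (1:ℝ)..U, ‖F u‖ ^ 2 : ℝ) : ℂ) =
      ∑ m ∈ Icc 1 M, ∑ n ∈ Icc 1 M, a m * (starRingEnd ℂ) (a n) * J m n := by
    rw [← intervalIntegral.integral_ofReal]
    have h1 : ∀ u : ℝ, ((‖F u‖ ^ 2 : ℝ) : ℂ) = ∑ m ∈ Icc 1 M, ∑ n ∈ Icc 1 M,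
        a m * (starRingEnd ℂ) (a n) * cexp (I * ((Real.log n - Real.log m : ℝ) : ℂ) * (u : ℂ)) := by
      intro u
      have : ((‖F u‖ ^ 2 : ℝ) : ℂ) = F u * (starRingEnd ℂ) (F u) := by
        rw [Complex.mul_conj']
        push_cast
        rfl
      rw [this, hF]
      simp only [map_sum]
      rw [sum_mul_sum]
      refine sum_congr rfl fun m hm => sum_congr rfl fun n hn => ?_
      rw [hpow m hm u, hpow n hn u, map_mul, ← Complex.exp_conj, map_neg, map_mul, map_mul,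
        Complex.conj_I, Complex.conj_ofReal, Complex.conj_ofReal]
      have e : cexp (I * ((Real.log n - Real.log m : ℝ) : ℂ) * (u : ℂ)) =
          cexp (-(I * (Real.log m : ℂ) * u)) * cexp (-(-I * (Real.log n : ℂ) * u)) := by
        rw [← Complex.exp_add]
        congr 1
        push_cast
        ring
      rw [e]
      ring
    have hc : ∀ m n : ℕ, Continuous fun u : ℝ =>
        a m * (starRingEnd ℂ) (a n) * cexp (I * ((Real.log n - Real.log m : ℝ) : ℂ) * (u : ℂ)) := by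
      intro m n
      fun_prop
    simp_rw [h1]
    rw [intervalIntegral.integral_finsetSum]
    · refine sum_congr rfl fun m _ => ?_
      rw [intervalIntegral.integral_finsetSum]
      · refine sum_congr rfl fun n _ => ?_
        rw [intervalIntegral.integral_const_mul]
      · intro n _
        exact (hc m n).intervalIntegrable _ _
    · intro m _
      exact (continuous_finsetSum _ fun n _ => hc m n).intervalIntegrable _ _
  have hnn : 0 ≤ ∫ u in (1:ℝ)..U, ‖F u‖ ^ 2 :=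
    intervalIntegral.integral_nonneg hU fun _ _ => by positivity
  have h2 : ∫ u in (1:ℝ)..U, ‖F u‖ ^ 2 ≤ ∑ m ∈ Icc 1 M, ∑ n ∈ Icc 1 M, ‖a m‖ * ‖a n‖ * ‖J m n‖ := by
    have e : ∫ u in (1:ℝ)..U, ‖F u‖ ^ 2 = ‖((∫ u in (1:ℝ)..U, ‖F u‖ ^ 2 : ℝ) : ℂ)‖ := by
      rw [Complex.norm_real, Real.norm_eq_abs, abs_of_nonneg hnn]
    rw [e, hint]
    refine (norm_sum_le _ _).trans (sum_le_sum fun m _ => (norm_sum_le _ _).trans
      (sum_le_sum fun n _ => ?_))
    rw [norm_mul, norm_mul, Complex.norm_conj]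
  refine h2.trans ?_
  set A : ℕ → ℝ := fun n => (n:ℝ) * ‖a n‖ ^ 2 with hA
  set w : ℕ → ℕ → ℝ := fun m n => if m = n then (0:ℝ) else 1 / |(m:ℝ) - n| + 1 / n with hw
  have hAn : ∀ n, 0 ≤ A n := fun n => by rw [hA]; positivity
  have h3 : ∀ m ∈ Icc 1 M, ∀ n ∈ Icc 1 M, ‖a m‖ * ‖a n‖ * ‖J m n‖ ≤
      (if m = n then U * ‖a m‖ ^ 2 else 0) + (A m * w m n + A n * w n m) := by
    intro m hm n hn
    rw [mem_Icc] at hm hn
    have hn1 : (0:ℝ) < n := by exact_mod_cast hn.1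
    have hm1 : (0:ℝ) < m := by exact_mod_cast hm.1
    have hJn : m ≠ n → ‖J m n‖ ≤ 2 / |Real.log n - Real.log m| := by
      intro h
      refine int_exp U _ ?_
      rw [sub_ne_zero]
      intro h'
      have := Real.log_injOn_pos (Set.mem_Ioi.2 hn1) (Set.mem_Ioi.2 hm1) h'
      exact h (by exact_mod_cast this.symm)
    rcases lt_trichotomy m n with h | h | h
    · rw [if_neg h.ne, zero_add, hw]
      simp only [if_neg h.ne, if_neg h.ne']
      have h4 := pair_le hm.1 h (norm_nonneg (a m)) (norm_nonneg (a n))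
      have h5 : (m:ℝ) < n := by exact_mod_cast h
      have e1 : |(m:ℝ) - n| = n - m := by rw [abs_sub_comm, abs_of_pos]; linarith
      have e2 : |(n:ℝ) - m| = n - m := by rw [abs_of_pos]; linarith
      rw [e1, e2]
      have h6 := mul_le_mul_of_nonneg_left (hJn h.ne) (mul_nonneg (norm_nonneg (a m)) (norm_nonneg (a n)))
      have h7 : 0 ≤ A m * (1 / n) := mul_nonneg (hAn m) (by positivity)
      have e3 : A m * (1 / ((n:ℝ) - m) + 1 / n) = A m * (1 / ((n:ℝ) - m)) + A m * (1 / n) := by ring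
      rw [e3]
      simp only [hA] at h7 ⊢
      linarith
    · subst h
      rw [if_pos rfl, hw]
      simp only [if_true, mul_zero, add_zero]
      have h4 : ‖J m m‖ ≤ U := by
        rw [hJ]
        simp only [sub_self, Complex.ofReal_zero, mul_zero, zero_mul, Complex.exp_zero]
        rw [intervalIntegral.integral_const, norm_smul, norm_one, mul_one, Real.norm_eq_abs,
          abs_of_nonneg (by linarith)]
        linarith
      calc ‖a m‖ * ‖a m‖ * ‖J m m‖ ≤ ‖a m‖ * ‖a m‖ * U := by gcongr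
        _ = U * ‖a m‖ ^ 2 := by ring
    · rw [if_neg h.ne', zero_add, hw]
      simp only [if_neg h.ne, if_neg h.ne']
      have h4 := pair_le hn.1 h (norm_nonneg (a n)) (norm_nonneg (a m))
      have h5 : (n:ℝ) < m := by exact_mod_cast h
      have e1 : |(m:ℝ) - n| = m - n := by rw [abs_of_pos]; linarith
      have e2 : |(n:ℝ) - m| = m - n := by rw [abs_sub_comm, abs_of_pos]; linarith
      rw [e1, e2]
      have h6 := mul_le_mul_of_nonneg_left (hJn h.ne') (mul_nonneg (norm_nonneg (a m)) (norm_nonneg (a n)))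
      rw [abs_sub_comm] at h6
      have h7 : 0 ≤ A n * (1 / m) := mul_nonneg (hAn n) (by positivity)
      have e3 : A n * (1 / ((m:ℝ) - n) + 1 / m) = A n * (1 / ((m:ℝ) - n)) + A n * (1 / m) := by ring
      rw [e3]
      simp only [hA] at h7 ⊢
      have e4 : ‖a n‖ * ‖a m‖ = ‖a m‖ * ‖a n‖ := mul_comm _ _
      rw [e4] at h4
      linarith
  refine (sum_le_sum fun m hm => sum_le_sum fun n hn => h3 m hm n hn).trans ?_
  simp only [sum_add_distrib]
  have h5 : ∑ m ∈ Icc 1 M, ∑ n ∈ Icc 1 M, (if m = n then U * ‖a m‖ ^ 2 else 0) =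
      U * ∑ n ∈ Icc 1 M, ‖a n‖ ^ 2 := by
    rw [mul_sum]
    refine sum_congr rfl fun m hm => ?_
    rw [sum_ite_eq, if_pos hm]
  have h6 : ∑ m ∈ Icc 1 M, ∑ n ∈ Icc 1 M, A n * w n m = ∑ m ∈ Icc 1 M, ∑ n ∈ Icc 1 M, A m * w m n :=
    sum_comm
  have h7 : ∑ m ∈ Icc 1 M, ∑ n ∈ Icc 1 M, A m * w m n ≤
      (3 * ∑ k ∈ Icc 1 M, (1:ℝ) / k) * ∑ m ∈ Icc 1 M, A m := by
    rw [mul_sum]
    refine sum_le_sum fun m hm => ?_
    rw [← mul_sum, mul_comm]
    exact mul_le_mul_of_nonneg_right (w_sum M m hm) (hAn m)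
  rw [h5, h6]
  have : 6 * (∑ k ∈ Icc 1 M, (1:ℝ) / k) * ∑ n ∈ Icc 1 M, (n:ℝ) * ‖a n‖ ^ 2 =
    (3 * ∑ k ∈ Icc 1 M, (1:ℝ) / k) * ∑ m ∈ Icc 1 M, A m +
    (3 * ∑ k ∈ Icc 1 M, (1:ℝ) / k) * ∑ m ∈ Icc 1 M, A m := by rw [hA]; ring
  rw [this]
  linarith

end Pool.Agent.Y96.SX
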