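import Pool.Agent.Y969.SM.Stm3
import Pool.Agent.TH811.GS.One
import Pool.Agent.H316R2.LS
import Pool.Agent.Y96.SX.MV
import Pool.Agent.Y96.SX.Co

/-!
# SX-ZM (job 9604): mean squares on the line one (helper96)
-/

set_option autoImplicit false

namespace Pool.Agent.Y96.SX

open Finset Filter Topology MeasureTheory Complex
open Pool.Agent.TH612.GS (zN)
open Pool.Agent.Y969.SM (Py S_ZM)

noncomputable section

theorem term_eq {r : ℕ} (hr : 1 ≤ r) (x : ℝ) :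
    (r : ℂ) ^ (-(1 + I * (x:ℂ))) = (r:ℂ)⁻¹ * (r : ℂ) ^ (-(I * (x:ℂ))) := by
  have h0 : (r:ℂ) ≠ 0 := by exact_mod_cast (by omega : r ≠ 0)
  rw [show -(1 + I * (x:ℂ)) = -1 + -(I * (x:ℂ)) by ring, Complex.cpow_add _ _ h0, Complex.cpow_neg_one]

/-- the coefficients without the first one -/
def aa (N Q r : ℕ) : ℂ := if r = 1 then 0 else (bb N Q r : ℂ) * (r:ℂ)⁻¹

theorem dir_eq {N : ℕ} (y : ℕ) (hN : 1 ≤ N) (x : ℝ) :
    zN N (1 + I * x) * (∏ p ∈ (Finset.range (y + 1)).filter Nat.Prime,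
      (1 - (p : ℂ) ^ (-(1 + I * (x:ℂ))))) - 1 =
      ∑ r ∈ Icc 1 (N * primorial y), aa N (primorial y) r * (r : ℂ) ^ (-(I * (x:ℂ))) := by
  have hQ : 0 < primorial y := primorial_pos y
  rw [euler_eq]
  unfold zN
  rw [sum_mul_sum, sum_comm]
  have h1 : ∑ d ∈ (primorial y).divisors, ∑ m ∈ Icc 1 N, (m:ℂ) ^ (-(1 + I * (x:ℂ))) *
      ((ArithmeticFunction.moebius d : ℂ) * (d:ℂ) ^ (-(1 + I * (x:ℂ)))) =
      ∑ d ∈ (primorial y).divisors, ∑ m ∈ Icc 1 N, (ArithmeticFunction.moebius d : ℂ) *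
        (((m * d : ℕ) : ℂ) ^ (-(1 + I * (x:ℂ)))) := by
    refine sum_congr rfl fun d _ => sum_congr rfl fun m _ => ?_
    rw [Nat.cast_mul, Complex.natCast_mul_natCast_cpow]
    ring
  rw [h1, prod_eq N (primorial y) hQ.ne' (fun r => (r:ℂ) ^ (-(1 + I * (x:ℂ))))]
  have h2 : 1 ∈ Icc 1 (N * primorial y) := mem_Icc.2 ⟨le_rfl, Nat.mul_pos hN hQ⟩
  rw [← add_sum_erase _ _ h2, ← add_sum_erase _ (fun r => aa N (primorial y) r * _) h2]
  have e1 : bb N (primorial y) 1 = 1 := by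
    rw [bb_small hQ.ne' le_rfl hN]
    simp
  have e2 : aa N (primorial y) 1 = 0 := if_pos rfl
  rw [e1, e2]
  have e3 : ∑ r ∈ (Icc 1 (N * primorial y)).erase 1, (bb N (primorial y) r : ℂ) *
      (r:ℂ) ^ (-(1 + I * (x:ℂ))) = ∑ r ∈ (Icc 1 (N * primorial y)).erase 1,
        aa N (primorial y) r * (r : ℂ) ^ (-(I * (x:ℂ))) := by
    refine sum_congr rfl fun r hr => ?_
    rw [mem_erase, mem_Icc] at hr
    rw [term_eq hr.2.1, aa, if_neg hr.1]
    ring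
  rw [e3]
  simp

theorem aa_norm {N Q r : ℕ} (hr : 1 ≤ r) : ‖aa N Q r‖ ≤ |(bb N Q r : ℝ)| / r := by
  unfold aa
  split_ifs
  · rw [norm_zero]
    positivity
  · rw [norm_mul, Complex.norm_intCast, norm_inv, Complex.norm_natCast]
    exact le_of_eq (div_eq_mul_inv _ _).symm

theorem aa_sq {N y r : ℕ} (hN : 1 ≤ N) (hr : 1 ≤ r) :
    ‖aa N (primorial y) r‖ ^ 2 ≤ (if y < r then (((r:ℝ)) ^ 2)⁻¹ else 0) +
      (1 / (N:ℝ)) * ((r.divisors.card : ℝ) ^ 2 / r) := by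
  have hQ : 0 < primorial y := primorial_pos y
  have hr0 : (0:ℝ) < r := by exact_mod_cast hr
  have hN0 : (0:ℝ) < N := by exact_mod_cast hN
  have h0 : 0 ≤ (1 / (N:ℝ)) * ((r.divisors.card : ℝ) ^ 2 / r) := by positivity
  have h1 : 0 ≤ (if y < r then (((r:ℝ)) ^ 2)⁻¹ else 0) := by positivity
  rcases le_or_gt r N with h | h
  · refine le_trans ?_ (le_add_of_nonneg_right h0)
    rcases eq_or_ne r 1 with e | e
    · have : aa N (primorial y) r = 0 := if_pos e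
      rw [this, norm_zero]
      simpa using h1
    split_ifs with hy
    · have h2 : |(bb N (primorial y) r : ℝ)| ≤ 1 := by
        rw [bb_small hQ.ne' hr h]
        split_ifs <;> simp
      calc ‖aa N (primorial y) r‖ ^ 2 ≤ (|(bb N (primorial y) r : ℝ)| / r) ^ 2 := by
            gcongr
            exact aa_norm hr
        _ ≤ (1 / (r:ℝ)) ^ 2 := by gcongr
        _ = _ := by rw [one_div, inv_pow]
    · have h2 : bb N (primorial y) r = 0 := by
        rw [bb_small hQ.ne' hr h, if_neg (gcd_ne_one (by omega) (by omega))]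
      have h3 := aa_norm (N := N) (Q := primorial y) hr
      rw [h2] at h3
      have h4 : ‖aa N (primorial y) r‖ = 0 := by
        refine le_antisymm ?_ (norm_nonneg _)
        simpa using h3
      rw [h4]
      norm_num
  · refine le_trans ?_ (le_add_of_nonneg_left h1)
    have h2 := bb_le N (primorial y) r hr
    calc ‖aa N (primorial y) r‖ ^ 2 ≤ (|(bb N (primorial y) r : ℝ)| / r) ^ 2 := by
          gcongr
          exact aa_norm hr
      _ ≤ ((r.divisors.card : ℝ) / r) ^ 2 := by gcongr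
      _ = (1 / (r:ℝ)) * ((r.divisors.card : ℝ) ^ 2 / r) := by
          field_simp
      _ ≤ _ := by
          gcongr

theorem aa_sq' {N Q r : ℕ} (hr : 1 ≤ r) :
    (r:ℝ) * ‖aa N Q r‖ ^ 2 ≤ (r.divisors.card : ℝ) ^ 2 / r := by
  have hr0 : (0:ℝ) < r := by exact_mod_cast hr
  have h2 := bb_le N Q r hr
  calc (r:ℝ) * ‖aa N Q r‖ ^ 2 ≤ r * (|(bb N Q r : ℝ)| / r) ^ 2 := by
        gcongr
        exact aa_norm hr
    _ ≤ r * ((r.divisors.card : ℝ) / r) ^ 2 := by gcongr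
    _ = _ := by field_simp

theorem G_bound {U : ℝ} {N : ℕ} (y : ℕ) (hU : 1 ≤ U) (hN : 1 ≤ N) :
    ∫ x in (1:ℝ)..U, ‖zN N (1 + I * x) * (∏ p ∈ (Finset.range (y + 1)).filter Nat.Prime,
      (1 - (p : ℂ) ^ (-(1 + I * (x:ℂ))))) - 1‖ ^ 2 ≤
      U * (2 / (y + 1) + (1 / (N:ℝ)) * (1 + Real.log ((N * primorial y : ℕ) : ℝ)) ^ 4) +
        6 * (1 + Real.log ((N * primorial y : ℕ) : ℝ)) * (1 + Real.log ((N * primorial y : ℕ) : ℝ)) ^ 4 := by
  have h0 : ∀ x : ℝ, ‖zN N (1 + I * x) * (∏ p ∈ (Finset.range (y + 1)).filter Nat.Prime,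
      (1 - (p : ℂ) ^ (-(1 + I * (x:ℂ))))) - 1‖ ^ 2 =
      ‖∑ r ∈ Icc 1 (N * primorial y), aa N (primorial y) r * (r : ℂ) ^ (-(I * (x:ℂ)))‖ ^ 2 := by
    intro x
    rw [dir_eq y hN x]
  simp_rw [h0]
  refine (mv (N * primorial y) U hU (aa N (primorial y))).trans ?_
  have ht := Pool.Agent.H316R2.tau_sq_sum_le (N * primorial y)
  have hh := Pool.Agent.H316R2.harm_sum_le (N * primorial y)
  have hN0 : (0:ℝ) < N := by exact_mod_cast hN
  have h1 : ∑ r ∈ Icc 1 (N * primorial y), ‖aa N (primorial y) r‖ ^ 2 ≤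
      2 / (y + 1) + (1 / (N:ℝ)) * (1 + Real.log ((N * primorial y : ℕ) : ℝ)) ^ 4 := by
    refine (sum_le_sum fun r hr => aa_sq (y := y) hN (mem_Icc.1 hr).1).trans ?_
    rw [sum_add_distrib]
    refine add_le_add ?_ ?_
    · rw [← sum_filter]
      refine le_trans ?_ (sum_Ioo_inv_sq_le (α := ℝ) y (N * primorial y + 1))
      refine sum_le_sum_of_subset_of_nonneg ?_ fun _ _ _ => by positivity
      intro r hr
      rw [mem_filter, mem_Icc] at hr
      exact mem_Ioo.2 ⟨hr.2, by omega⟩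
    · rw [← mul_sum]
      exact mul_le_mul_of_nonneg_left ht (by positivity)
  have h2 : ∑ r ∈ Icc 1 (N * primorial y), (r:ℝ) * ‖aa N (primorial y) r‖ ^ 2 ≤
      (1 + Real.log ((N * primorial y : ℕ) : ℝ)) ^ 4 :=
    (sum_le_sum fun r hr => aa_sq' (mem_Icc.1 hr).1).trans ht
  have h3 : 0 ≤ ∑ r ∈ Icc 1 (N * primorial y), (r:ℝ) * ‖aa N (primorial y) r‖ ^ 2 :=
    sum_nonneg fun _ _ => by positivity
  have h4 : 0 ≤ Real.log ((N * primorial y : ℕ) : ℝ) := Real.log_natCast_nonneg _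
  gcongr

theorem z_bound {U : ℝ} {N : ℕ} (hU : 1 ≤ U) :
    ∫ x in (1:ℝ)..U, ‖zN N (1 + I * x)‖ ^ 2 ≤ U * 2 + 6 * (1 + Real.log N) * (1 + Real.log N) := by
  have h0 : ∀ x : ℝ, ‖zN N (1 + I * x)‖ ^ 2 =
      ‖∑ r ∈ Icc 1 N, (r:ℂ)⁻¹ * (r : ℂ) ^ (-(I * (x:ℂ)))‖ ^ 2 := by
    intro x
    unfold zN
    rw [sum_congr rfl fun r hr => term_eq (mem_Icc.1 hr).1 x]
  simp_rw [h0]
  refine (mv N U hU fun r => (r:ℂ)⁻¹).trans ?_
  have hh := Pool.Agent.H316R2.harm_sum_le N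
  have h1 : ∑ r ∈ Icc 1 N, ‖(r:ℂ)⁻¹‖ ^ 2 ≤ 2 := by
    have h2 := sum_Ioo_inv_sq_le (α := ℝ) 0 (N + 1)
    have h3 : ∑ r ∈ Icc 1 N, ‖(r:ℂ)⁻¹‖ ^ 2 = ∑ r ∈ Ioo 0 (N + 1), ((r:ℝ) ^ 2)⁻¹ := by
      refine sum_congr ?_ fun r _ => ?_
      · ext r
        rw [mem_Icc, mem_Ioo]
        omega
      · rw [norm_inv, Complex.norm_natCast, inv_pow]
    rw [h3]
    simpa using h2
  have h2 : ∑ r ∈ Icc 1 N, (r:ℝ) * ‖(r:ℂ)⁻¹‖ ^ 2 ≤ 1 + Real.log N := by
    refine le_trans (le_of_eq ?_) hh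
    refine sum_congr rfl fun r hr => ?_
    have hr0 : (0:ℝ) < r := by exact_mod_cast (mem_Icc.1 hr).1
    rw [norm_inv, Complex.norm_natCast]
    field_simp
  have h3 : 0 ≤ ∑ r ∈ Icc 1 N, (r:ℝ) * ‖(r:ℂ)⁻¹‖ ^ 2 := sum_nonneg fun _ _ => by positivity
  have h4 : 0 ≤ Real.log (N:ℝ) := Real.log_natCast_nonneg _
  gcongr

theorem inv_sq_int {U : ℝ} (hU : 1 ≤ U) : ∫ x in (1:ℝ)..U, (x ^ 2)⁻¹ ≤ 1 := by
  have h1 : ∀ x : ℝ, (x ^ 2)⁻¹ = x ^ (-2 : ℤ) := fun x => by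
    rw [zpow_neg]
    rfl
  simp_rw [h1]
  rw [integral_zpow (Or.inr ⟨by norm_num, ?_⟩)]
  · norm_num
    have : 0 < U := by linarith
    have h2 : 0 < U⁻¹ := by positivity
    linarith
  · rw [Set.uIcc_of_le hU]
    intro h
    have := h.1
    linarith

theorem inv_sq_ii {U : ℝ} (hU : 1 ≤ U) :
    IntervalIntegrable (fun x : ℝ => (x ^ 2)⁻¹) volume 1 U := by
  refine ContinuousOn.intervalIntegrable ?_
  rw [Set.uIcc_of_le hU]
  refine ContinuousOn.inv₀ (by fun_prop) ?_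
  intro x hx
  have : 0 < x := by linarith [hx.1]
  positivity

theorem diff_bound {U : ℝ} {N : ℕ} (hU : 3 ≤ U) (hN : U ^ 2 / 2 ≤ (N:ℝ) - 1) {x : ℝ}
    (hx : x ∈ Set.Icc 1 U) : ‖riemannZeta (1 + I * x) - zN N (1 + I * x)‖ ≤ 4 / x := by
  have hx0 : 0 < x := by linarith [hx.1]
  have h := Pool.Agent.TH811.GS.approx hU hN (v := x) (by rw [abs_of_pos hx0]; exact hx.1)
    (by rw [abs_of_pos hx0]; exact hx.2)
  refine h.trans ?_
  rw [abs_of_pos hx0]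
  have h1 : 3 / U ≤ 3 / x := div_le_div_of_nonneg_left (by norm_num) hx0 hx.2
  have h2 : 4 / x = 1 / x + 3 / x := by ring
  linarith

theorem cont_z (U : ℝ) : ContinuousOn (fun x : ℝ => riemannZeta (1 + I * x)) (Set.Icc 1 U) := by
  intro x hx
  have hx0 : 0 < x := by linarith [hx.1]
  exact (Pool.Agent.TH811.GS.cont_zeta hx0).continuousWithinAt

theorem cont_P (y : ℕ) : Continuous fun x : ℝ => ∏ p ∈ (Finset.range (y + 1)).filter Nat.Prime,
    (1 - (p : ℂ) ^ (-(1 + I * (x:ℂ)))) := by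
  refine continuous_finsetProd _ fun p hp => ?_
  have h0 : (p : ℂ) ≠ 0 := by exact_mod_cast (mem_filter.1 hp).2.ne_zero
  exact continuous_const.sub (Continuous.const_cpow (by fun_prop) (Or.inl h0))

theorem N_facts {U : ℝ} (hU : 4 ≤ U) : U ^ 2 / 2 ≤ (⌊U ^ 2⌋₊ : ℝ) - 1 ∧ 1 ≤ ⌊U ^ 2⌋₊ ∧
    Real.log (⌊U ^ 2⌋₊ : ℝ) ≤ 2 * Real.log U ∧ U ≤ (⌊U ^ 2⌋₊ : ℝ) := by
  have h1 : U ^ 2 < (⌊U ^ 2⌋₊ : ℝ) + 1 := Nat.lt_floor_add_one _
  have h2 : (⌊U ^ 2⌋₊ : ℝ) ≤ U ^ 2 := Nat.floor_le (by positivity)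
  have h3 : (1:ℝ) ≤ (⌊U ^ 2⌋₊ : ℝ) := by nlinarith
  refine ⟨by nlinarith, by exact_mod_cast h3, ?_, by nlinarith⟩
  have h4 := Real.log_le_log (by linarith) h2
  rw [Real.log_pow] at h4
  exact_mod_cast h4

theorem main_one {U : ℝ} (hU : 4 ≤ U) :
    ∫ x in (1:ℝ)..U, ‖riemannZeta (1 + I * x) * Py (Real.log U) x - 1‖ ^ 2 ≤
      4 * U / Real.log U + 40000 * Real.log U ^ 5 := by
  set L := Real.log U with hL
  have hU0 : 0 < U := by linarith
  have hL1 : 1 ≤ L := by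
    rw [hL, Real.le_log_iff_exp_le hU0]
    have := Real.exp_one_lt_d9
    linarith
  set y : ℕ := ⌊L⌋₊ with hy
  have hy1 : (y:ℝ) ≤ L := Nat.floor_le (by linarith)
  have hy2 : L < (y:ℝ) + 1 := Nat.lt_floor_add_one _
  set N : ℕ := ⌊U ^ 2⌋₊ with hN
  obtain ⟨hN1, hN2, hN3, hN4⟩ := N_facts hU
  rw [← hN] at hN1 hN2 hN3 hN4
  rw [← hL] at hN3
  set P : ℝ → ℂ := fun x => ∏ p ∈ (Finset.range (y + 1)).filter Nat.Prime,
    (1 - (p : ℂ) ^ (-(1 + I * (x:ℂ)))) with hP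
  have hPy : ∀ x : ℝ, Py L x = P x := fun x => rfl
  have hPc : Continuous P := cont_P y
  have hPn : ∀ x, ‖P x‖ ≤ L + 1 := fun x => (norm_euler_le y x).trans (by linarith)
  simp_rw [hPy]
  have hNc : Continuous fun v : ℝ => zN N (1 + I * v) := Pool.Agent.TH811.GS.cont_zN N
  have hpt : ∀ x ∈ Set.Icc (1:ℝ) U, ‖riemannZeta (1 + I * x) * P x - 1‖ ^ 2 ≤
      2 * ‖zN N (1 + I * x) * P x - 1‖ ^ 2 + 32 * (L + 1) ^ 2 * (x ^ 2)⁻¹ := by
    intro x hx
    have hx0 : 0 < x := by linarith [hx.1]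
    have h1 := diff_bound (by linarith) hN1 hx
    have e : riemannZeta (1 + I * x) * P x - 1 = (zN N (1 + I * x) * P x - 1) +
        (riemannZeta (1 + I * x) - zN N (1 + I * x)) * P x := by ring
    have h2 : ‖(riemannZeta (1 + I * x) - zN N (1 + I * x)) * P x‖ ≤ 4 / x * (L + 1) := by
      rw [norm_mul]
      exact mul_le_mul h1 (hPn x) (norm_nonneg _) (by positivity)
    have h3 := norm_add_le (zN N (1 + I * x) * P x - 1)
      ((riemannZeta (1 + I * x) - zN N (1 + I * x)) * P x)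
    rw [← e] at h3
    have h4 : ‖riemannZeta (1 + I * x) * P x - 1‖ ≤ ‖zN N (1 + I * x) * P x - 1‖ + 4 / x * (L + 1) := by
      linarith
    have h5 : (4 / x * (L + 1)) ^ 2 = 16 * (L + 1) ^ 2 * (x ^ 2)⁻¹ := by
      field_simp
      norm_num
    have h6 : ‖riemannZeta (1 + I * x) * P x - 1‖ ^ 2 ≤
        (‖zN N (1 + I * x) * P x - 1‖ + 4 / x * (L + 1)) ^ 2 := by gcongr
    nlinarith [sq_nonneg (‖zN N (1 + I * x) * P x - 1‖ - 4 / x * (L + 1))]
  have hU1 : (1:ℝ) ≤ U := by linarith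
  have hi1 : IntervalIntegrable (fun x : ℝ => ‖riemannZeta (1 + I * x) * P x - 1‖ ^ 2) volume 1 U := by
    refine ContinuousOn.intervalIntegrable ?_
    rw [Set.uIcc_of_le hU1]
    exact ((((cont_z U).mul hPc.continuousOn).sub continuousOn_const).norm).pow 2
  have hi2 : IntervalIntegrable (fun x : ℝ => 2 * ‖zN N (1 + I * x) * P x - 1‖ ^ 2) volume 1 U := by
    refine Continuous.intervalIntegrable ?_ _ _
    exact continuous_const.mul ((((hNc.mul hPc).sub continuous_const).norm).pow 2)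
  have hi3 : IntervalIntegrable (fun x : ℝ => 32 * (L + 1) ^ 2 * (x ^ 2)⁻¹) volume 1 U :=
    (inv_sq_ii hU1).const_mul _
  refine (intervalIntegral.integral_mono_on hU1 hi1 (hi2.add hi3) hpt).trans ?_
  rw [intervalIntegral.integral_add hi2 hi3, intervalIntegral.integral_const_mul,
    intervalIntegral.integral_const_mul]
  have hG := G_bound (N := N) y hU1 hN2
  have hI := inv_sq_int hU1
  have hlog : 1 + Real.log ((N * primorial y : ℕ) : ℝ) ≤ 5 * L := by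
    have hQ : 0 < primorial y := primorial_pos y
    have hQ0 : (0:ℝ) < (primorial y : ℝ) := by exact_mod_cast hQ
    have hN0 : (0:ℝ) < N := by exact_mod_cast hN2
    rw [Nat.cast_mul, Real.log_mul hN0.ne' hQ0.ne']
    have h1 : Real.log (primorial y : ℝ) ≤ 2 * y := by
      have h2 : (primorial y : ℝ) ≤ 4 ^ y := by exact_mod_cast primorial_le_four_pow y
      have h3 := Real.log_le_log hQ0 h2
      rw [Real.log_pow] at h3
      have h4 : Real.log 4 ≤ 2 := by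
        rw [show (4:ℝ) = 2 ^ 2 by norm_num, Real.log_pow]
        have := Real.log_two_lt_d9
        push_cast
        linarith
      have h5 : (0:ℝ) ≤ y := by positivity
      nlinarith
    linarith
  have hlog0 : 0 ≤ Real.log ((N * primorial y : ℕ) : ℝ) := Real.log_natCast_nonneg _
  have hG2 : ∫ x in (1:ℝ)..U, ‖zN N (1 + I * x) * P x - 1‖ ^ 2 ≤ 2 * U / L + 19375 * L ^ 5 := by
    refine hG.trans ?_
    have hL0 : 0 < L := by linarith
    have hN0 : (0:ℝ) < N := by linarith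
    have a1 : U * (2 / ((y:ℝ) + 1)) ≤ 2 * U / L := by
      have : 2 / ((y:ℝ) + 1) ≤ 2 / L := div_le_div_of_nonneg_left (by norm_num) hL0 hy2.le
      calc U * (2 / ((y:ℝ) + 1)) ≤ U * (2 / L) := by gcongr
        _ = _ := by ring
    have a2 : (1 + Real.log ((N * primorial y : ℕ) : ℝ)) ^ 4 ≤ 625 * L ^ 4 := by
      calc (1 + Real.log ((N * primorial y : ℕ) : ℝ)) ^ 4 ≤ (5 * L) ^ 4 := by gcongr
        _ = _ := by ring
    have a3 : U * (1 / (N:ℝ)) ≤ 1 := by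
      rw [mul_one_div, div_le_one hN0]
      exact hN4
    have a4 : U * ((1 / (N:ℝ)) * (1 + Real.log ((N * primorial y : ℕ) : ℝ)) ^ 4) ≤ 625 * L ^ 4 := by
      calc U * ((1 / (N:ℝ)) * (1 + Real.log ((N * primorial y : ℕ) : ℝ)) ^ 4) =
          (U * (1 / (N:ℝ))) * (1 + Real.log ((N * primorial y : ℕ) : ℝ)) ^ 4 := by ring
        _ ≤ 1 * (1 + Real.log ((N * primorial y : ℕ) : ℝ)) ^ 4 := by gcongr
        _ ≤ _ := by linarith
    have a5 : 6 * (1 + Real.log ((N * primorial y : ℕ) : ℝ)) *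
        (1 + Real.log ((N * primorial y : ℕ) : ℝ)) ^ 4 ≤ 18750 * L ^ 5 := by
      calc 6 * (1 + Real.log ((N * primorial y : ℕ) : ℝ)) *
          (1 + Real.log ((N * primorial y : ℕ) : ℝ)) ^ 4 ≤ 6 * (5 * L) * (625 * L ^ 4) := by gcongr
        _ = _ := by ring
    have a6 : L ^ 4 ≤ L ^ 5 := pow_le_pow_right₀ hL1 (by norm_num)
    rw [mul_add]
    linarith
  have b1 : 32 * (L + 1) ^ 2 * ∫ x in (1:ℝ)..U, (x ^ 2)⁻¹ ≤ 128 * L ^ 2 := by
    have : (L + 1) ^ 2 ≤ (2 * L) ^ 2 := by gcongr; linarith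
    calc 32 * (L + 1) ^ 2 * ∫ x in (1:ℝ)..U, (x ^ 2)⁻¹ ≤ 32 * (L + 1) ^ 2 * 1 := by gcongr
      _ ≤ _ := by nlinarith
  have b2 : L ^ 2 ≤ L ^ 5 := pow_le_pow_right₀ hL1 (by norm_num)
  have b3 : 4 * U / L = 2 * (2 * U / L) := by ring
  have b4 : 0 ≤ L ^ 5 := by positivity
  rw [b3]
  linarith

theorem main_two {U : ℝ} (hU : 4 ≤ U) :
    ∫ x in (1:ℝ)..U, ‖riemannZeta (1 + I * x)‖ ^ 2 ≤ 40 * U + 200 * Real.log U ^ 5 := by
  set L := Real.log U with hL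
  have hU0 : 0 < U := by linarith
  have hL1 : 1 ≤ L := by
    rw [hL, Real.le_log_iff_exp_le hU0]
    have := Real.exp_one_lt_d9
    linarith
  set N : ℕ := ⌊U ^ 2⌋₊ with hN
  obtain ⟨hN1, hN2, hN3, hN4⟩ := N_facts hU
  rw [← hN] at hN1 hN2 hN3 hN4
  rw [← hL] at hN3
  have hNc : Continuous fun v : ℝ => zN N (1 + I * v) := Pool.Agent.TH811.GS.cont_zN N
  have hpt : ∀ x ∈ Set.Icc (1:ℝ) U, ‖riemannZeta (1 + I * x)‖ ^ 2 ≤
      2 * ‖zN N (1 + I * x)‖ ^ 2 + 32 * (x ^ 2)⁻¹ := by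
    intro x hx
    have hx0 : 0 < x := by linarith [hx.1]
    have h1 := diff_bound (by linarith) hN1 hx
    have h3 := norm_add_le (zN N (1 + I * x)) (riemannZeta (1 + I * x) - zN N (1 + I * x))
    rw [add_sub_cancel] at h3
    have h4 : ‖riemannZeta (1 + I * x)‖ ≤ ‖zN N (1 + I * x)‖ + 4 / x := by linarith
    have h5 : (4 / x) ^ 2 = 16 * (x ^ 2)⁻¹ := by
      field_simp
      norm_num
    have h6 : ‖riemannZeta (1 + I * x)‖ ^ 2 ≤ (‖zN N (1 + I * x)‖ + 4 / x) ^ 2 := by gcongr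
    nlinarith [sq_nonneg (‖zN N (1 + I * x)‖ - 4 / x)]
  have hU1 : (1:ℝ) ≤ U := by linarith
  have hi1 : IntervalIntegrable (fun x : ℝ => ‖riemannZeta (1 + I * x)‖ ^ 2) volume 1 U := by
    refine ContinuousOn.intervalIntegrable ?_
    rw [Set.uIcc_of_le hU1]
    exact ((cont_z U).norm).pow 2
  have hi2 : IntervalIntegrable (fun x : ℝ => 2 * ‖zN N (1 + I * x)‖ ^ 2) volume 1 U := by
    refine Continuous.intervalIntegrable ?_ _ _
    exact continuous_const.mul ((hNc.norm).pow 2)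
  have hi3 : IntervalIntegrable (fun x : ℝ => 32 * (x ^ 2)⁻¹) volume 1 U :=
    (inv_sq_ii hU1).const_mul _
  refine (intervalIntegral.integral_mono_on hU1 hi1 (hi2.add hi3) hpt).trans ?_
  rw [intervalIntegral.integral_add hi2 hi3, intervalIntegral.integral_const_mul,
    intervalIntegral.integral_const_mul]
  have hZ := z_bound (N := N) hU1
  have hI := inv_sq_int hU1
  have hlog0 : 0 ≤ Real.log (N : ℝ) := Real.log_natCast_nonneg _
  have h1 : 6 * (1 + Real.log (N:ℝ)) * (1 + Real.log (N:ℝ)) ≤ 54 * L ^ 2 := by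
    calc 6 * (1 + Real.log (N:ℝ)) * (1 + Real.log (N:ℝ)) ≤ 6 * (3 * L) * (3 * L) := by
          gcongr <;> linarith
      _ = _ := by ring
  have b2 : L ^ 2 ≤ L ^ 5 := pow_le_pow_right₀ hL1 (by norm_num)
  nlinarith

theorem t_ZM : S_ZM := by
  have hlim : ∀ δ : ℝ, 0 < δ → ∀ᶠ U : ℝ in atTop, Real.log U ^ 5 ≤ δ * U := by
    intro δ hδ
    have h := (Real.isLittleO_pow_log_id_atTop (n := 5)).bound hδ
    filter_upwards [h, eventually_ge_atTop 1] with U hU h1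
    rw [id, Real.norm_eq_abs, Real.norm_eq_abs, abs_of_nonneg (by linarith : 0 ≤ U)] at hU
    exact (le_abs_self _).trans hU
  refine ⟨?_, 240, by norm_num, ?_⟩
  · intro ε hε
    filter_upwards [hlim (ε / 80000) (by positivity), eventually_ge_atTop 4,
      Real.tendsto_log_atTop.eventually_ge_atTop (8 / ε)] with U h1 h2 h3
    refine (main_one h2).trans ?_
    have hL0 : 0 < Real.log U := lt_of_lt_of_le (by positivity) h3
    have h4 : 4 * U / Real.log U ≤ ε / 2 * U := by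
      rw [div_le_iff₀ hL0]
      have h5 : 8 ≤ ε * Real.log U := by
        rw [div_le_iff₀ hε] at h3
        linarith
      nlinarith
    linarith
  · filter_upwards [hlim 1 one_pos, eventually_ge_atTop 4] with U h1 h2
    refine (main_two h2).trans ?_
    linarith

end

end Pool.Agent.Y96.SX
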